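import Pool.Agent.helper78.EQ.Spec
import Pool.Agent.helper44.DM.ZG
import Mathlib.Analysis.Complex.PhragmenLindelof

/-!
# Project EQ, module CVX: convexity type bound of the zeta function to the right of the imaginary axis
-/

set_option autoImplicit false

open Complex MeasureTheory Set Metric

namespace Pool.Agent.EQ

open Pool.Agent.helper6.LD

/-- The size of the Gamma function on the line `Re s = 1`. -/
private lemma helper34_gamma (t : ℝ) (ht : t ≠ 0) :
    ‖Complex.Gamma (1 - t * I)‖ ^ 2 * |Real.sinh (Real.pi * t)| = Real.pi * |t| := by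
  have h0 : ((t : ℂ) * I) ≠ 0 := mul_ne_zero (by exact_mod_cast ht) I_ne_zero
  have h1 : Complex.Gamma (1 + t * I) = t * I * Complex.Gamma (t * I) := by
    rw [add_comm, Complex.Gamma_add_one _ h0]
  have h2 := Complex.Gamma_mul_Gamma_one_sub ((t : ℂ) * I)
  have h3 : Complex.sin (Real.pi * (t * I)) = ((Real.sinh (Real.pi * t) : ℝ) : ℂ) * I := by
    rw [← mul_assoc, Complex.sin_mul_I]
    push_cast
    ring
  have h4 : (Real.sinh (Real.pi * t)) ≠ 0 := by
    rw [Ne, Real.sinh_eq_zero]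
    exact mul_ne_zero Real.pi_ne_zero ht
  have h5 : ((Real.sinh (Real.pi * t) : ℝ) : ℂ) ≠ 0 := by exact_mod_cast h4
  have h6 : Complex.Gamma (1 + t * I) * Complex.Gamma (1 - t * I)
      = Real.pi * t / ((Real.sinh (Real.pi * t) : ℝ) : ℂ) := by
    rw [h1, mul_assoc, h2, h3]
    field_simp
  have h7 : ‖Complex.Gamma (1 + t * I)‖ = ‖Complex.Gamma (1 - t * I)‖ := by
    have : (1 + (t : ℂ) * I) = (starRingEnd ℂ) (1 - t * I) := by
      simp [Complex.conj_ofReal]
    rw [this, Complex.Gamma_conj, Complex.norm_conj]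
  have h8 := congrArg norm h6
  rw [norm_mul, h7, norm_div, norm_mul, Complex.norm_real, Complex.norm_real, Complex.norm_real,
    Real.norm_eq_abs, Real.norm_eq_abs, Real.norm_eq_abs, abs_of_pos Real.pi_pos] at h8
  rw [pow_two, h8, div_mul_cancel₀]
  exact abs_ne_zero.mpr h4

/-- The factor of the functional equation on the imaginary axis. -/
private lemma helper34_factor (t : ℝ) (ht : t ≠ 0) :
    ‖Complex.Gamma (1 - t * I)‖ * |Real.sinh (Real.pi * t / 2)| ≤
      Real.sqrt (Real.pi * |t|) := by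
  have h1 := helper34_gamma t ht
  apply Real.le_sqrt_of_sq_le
  rw [mul_pow, sq_abs]
  have h2 : Real.sinh (Real.pi * t) =
      2 * Real.sinh (Real.pi * t / 2) * Real.cosh (Real.pi * t / 2) := by
    rw [← Real.sinh_two_mul]
    congr 1
    ring
  have h3 : |Real.sinh (Real.pi * t / 2)| ≤ Real.cosh (Real.pi * t / 2) := by
    rw [abs_le]
    have := Real.cosh_sub_sinh (Real.pi * t / 2)
    have h4 := Real.exp_pos (-(Real.pi * t / 2))
    have h5 := Real.cosh_add_sinh (Real.pi * t / 2)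
    have h6 := Real.exp_pos (Real.pi * t / 2)
    constructor <;> linarith
  have h4 : Real.sinh (Real.pi * t / 2) ^ 2 ≤ |Real.sinh (Real.pi * t)| := by
    rw [h2, abs_mul, abs_mul, abs_of_pos (by norm_num : (0:ℝ) < 2),
      abs_of_pos (Real.cosh_pos _), ← sq_abs, pow_two]
    have h5 : 0 ≤ |Real.sinh (Real.pi * t / 2)| := abs_nonneg _
    nlinarith [mul_le_mul_of_nonneg_left h3 h5, mul_nonneg h5 (Real.cosh_pos (Real.pi * t / 2)).le]
  calc ‖Complex.Gamma (1 - t * I)‖ ^ 2 * Real.sinh (Real.pi * t / 2) ^ 2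
      ≤ ‖Complex.Gamma (1 - t * I)‖ ^ 2 * |Real.sinh (Real.pi * t)| :=
        mul_le_mul_of_nonneg_left h4 (by positivity)
    _ = Real.pi * |t| := h1

/-- The functional equation on the imaginary axis. -/
private lemma helper34_axis (t : ℝ) (ht : t ≠ 0) :
    ‖riemannZeta (t * I)‖ ≤ Real.sqrt (Real.pi * |t|) * ‖riemannZeta (1 - t * I)‖ := by
  have h0 : ∀ n : ℕ, (1 - (t : ℂ) * I) ≠ -n := by
    intro n h
    have := congrArg Complex.im h
    simp at this
    exact ht this
  have h1 : (1 - (t : ℂ) * I) ≠ 1 := by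
    intro h
    have := congrArg Complex.im h
    simp at this
    exact ht this
  have h2 := riemannZeta_one_sub h0 h1
  rw [sub_sub_cancel] at h2
  have h3 : Complex.cos (Real.pi * (1 - t * I) / 2) =
      ((Real.sinh (Real.pi * t / 2) : ℝ) : ℂ) * I := by
    have : (Real.pi * (1 - t * I) / 2 : ℂ) = Real.pi / 2 - ((Real.pi * t / 2 : ℝ) : ℂ) * I := by
      push_cast
      ring
    rw [this, Complex.cos_pi_div_two_sub, Complex.sin_mul_I, Complex.ofReal_sinh]
  have h4 : ‖((2 : ℂ) * Real.pi) ^ (-(1 - (t : ℂ) * I))‖ = (2 * Real.pi)⁻¹ := by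
    have h5 : ((2 : ℂ) * Real.pi) = ((2 * Real.pi : ℝ) : ℂ) := by push_cast; ring
    rw [h5, Complex.norm_cpow_eq_rpow_re_of_pos (by positivity)]
    have : (-(1 - (t : ℂ) * I)).re = -1 := by simp
    rw [this, Real.rpow_neg_one]
  rw [h2, norm_mul, norm_mul, norm_mul, norm_mul, h4, h3, norm_mul, Complex.norm_real,
    Complex.norm_I, mul_one, Real.norm_eq_abs]
  have h5 := helper34_factor t ht
  have h6 : ‖(2 : ℂ)‖ * (2 * Real.pi)⁻¹ ≤ 1 := by
    rw [Complex.norm_ofNat, ← div_eq_mul_inv, div_le_one (by positivity)]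
    have := Real.pi_gt_three
    linarith
  refine mul_le_mul_of_nonneg_right ?_ (norm_nonneg _)
  calc ‖(2 : ℂ)‖ * (2 * Real.pi)⁻¹ * ‖Complex.Gamma (1 - t * I)‖ * |Real.sinh (Real.pi * t / 2)|
      = ‖(2 : ℂ)‖ * (2 * Real.pi)⁻¹ *
        (‖Complex.Gamma (1 - t * I)‖ * |Real.sinh (Real.pi * t / 2)|) := by ring
    _ ≤ 1 * (‖Complex.Gamma (1 - t * I)‖ * |Real.sinh (Real.pi * t / 2)|) :=
        mul_le_mul_of_nonneg_right h6 (by positivity)
    _ ≤ _ := by rw [one_mul]; exact h5

/-- The bound on the imaginary axis. -/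
private lemma helper34_axis_bound (hZ : ZEL_stmt) (η : ℝ) (hη : 0 < η) :
    ∃ C : ℝ, 0 < C ∧ ∀ t : ℝ, 1 ≤ |t| → ‖riemannZeta (t * I)‖ ≤ C * |t| ^ (1 / 2 + η) := by
  obtain ⟨C, hC, h⟩ := hZ η hη
  refine ⟨Real.sqrt Real.pi * C, by positivity, fun t ht => ?_⟩
  have ht0 : t ≠ 0 := by
    intro h0
    rw [h0, abs_zero] at ht
    linarith
  have h1 := helper34_axis t ht0
  have h2 := h (1 - t * I) (by simp; norm_num) (by simpa using ht)
  have h3 : (1 - (t : ℂ) * I).re = 1 := by simp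
  have h4 : |(1 - (t : ℂ) * I).im| = |t| := by simp
  rw [h3, h4, sub_self, max_self, zero_add] at h2
  have htp : 0 < |t| := by linarith
  rw [Real.sqrt_mul Real.pi_pos.le] at h1
  calc ‖riemannZeta (t * I)‖ ≤ Real.sqrt Real.pi * Real.sqrt |t| * ‖riemannZeta (1 - t * I)‖ := h1
    _ ≤ Real.sqrt Real.pi * Real.sqrt |t| * (C * |t| ^ η) :=
        mul_le_mul_of_nonneg_left h2 (by positivity)
    _ = Real.sqrt Real.pi * C * |t| ^ (1 / 2 + η) := by
        rw [Real.rpow_add htp, Real.sqrt_eq_rpow |t|]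
        ring

private lemma helper34_cpow_norm (s : ℂ) (a : ℝ) :
    ‖(s + 2) ^ (-(a : ℂ))‖ = ‖s + 2‖ ^ (-a) := by
  have : (-(a : ℂ)) = ((-a : ℝ) : ℂ) := by push_cast; ring
  rw [this, Complex.norm_cpow_real]

private lemma helper34_norm_ge (s : ℂ) (hs : 0 ≤ s.re) : 2 ≤ ‖s + 2‖ := by
  have h1 := Complex.re_le_norm (s + 2)
  have h2 : (s + 2).re = s.re + 2 := by simp
  linarith

private lemma helper34_norm_ge' (s : ℂ) : |s.im| ≤ ‖s + 2‖ := by
  have h1 := Complex.abs_im_le_norm (s + 2)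
  have h2 : (s + 2).im = s.im := by simp
  rwa [h2] at h1

private lemma helper34_diff (a : ℝ) (s : ℂ) (h0 : 0 ≤ s.re) (h1 : s.re ≤ 1 / 2) :
    DifferentiableAt ℂ (fun z : ℂ => riemannZeta z * (z + 2) ^ (-(a : ℂ))) s := by
  have hs1 : s ≠ 1 := by
    intro h
    rw [h, Complex.one_re] at h1
    linarith
  refine (differentiableAt_riemannZeta hs1).mul ?_
  refine DifferentiableAt.cpow (by fun_prop) (by fun_prop) ?_
  left
  have h2 : (s + 2).re = s.re + 2 := by simp
  rw [h2]
  linarith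

/-- A bound on a vertical line for the auxiliary function from a bound for large ordinates. -/
private lemma helper34_line (a σ C : ℝ) (h0 : 0 ≤ σ) (h1 : σ ≤ 1 / 2) (ha : 0 ≤ a) (hC : 0 < C)
    (h : ∀ z : ℂ, z.re = σ → 1 ≤ |z.im| → ‖riemannZeta z‖ ≤ C * |z.im| ^ a) :
    ∃ C' : ℝ, 0 < C' ∧ ∀ z : ℂ, z.re = σ →
      ‖riemannZeta z * (z + 2) ^ (-(a : ℂ))‖ ≤ C' := by
  have hcont : ContinuousOn (fun t : ℝ => riemannZeta ((σ : ℂ) + t * I) *
      (((σ : ℂ) + t * I) + 2) ^ (-(a : ℂ))) (Icc (-1) 1) := by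
    intro t _
    have h2 : ((σ : ℂ) + t * I).re = σ := by simp
    have h3 := (helper34_diff a ((σ : ℂ) + t * I) (by rw [h2]; exact h0)
      (by rw [h2]; exact h1)).continuousAt
    have h4 : ContinuousAt (fun t : ℝ => (σ : ℂ) + t * I) t := by fun_prop
    exact (ContinuousAt.comp (f := fun t : ℝ => (σ : ℂ) + t * I)
      (g := fun z : ℂ => riemannZeta z * (z + 2) ^ (-(a : ℂ))) h3 h4).continuousWithinAt
  obtain ⟨K, hK⟩ := isCompact_Icc.exists_bound_of_continuousOn hcont
  refine ⟨max K C, lt_of_lt_of_le hC (le_max_right _ _), fun z hz => ?_⟩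
  rcases le_total |z.im| 1 with h5 | h5
  · have h6 : z = (σ : ℂ) + z.im * I := by
      rw [← hz]
      exact (Complex.re_add_im z).symm
    have h7 := hK z.im (abs_le.mp h5)
    rw [← h6] at h7
    exact h7.trans (le_max_left _ _)
  · refine le_trans ?_ (le_max_right _ _)
    rw [norm_mul, helper34_cpow_norm]
    have h8 := h z hz h5
    have h9 : 0 < |z.im| := by linarith
    have h10 : ‖z + 2‖ ^ (-a) ≤ |z.im| ^ (-a) :=
      Real.rpow_le_rpow_of_nonpos h9 (helper34_norm_ge' z) (by linarith)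
    calc ‖riemannZeta z‖ * ‖z + 2‖ ^ (-a) ≤ (C * |z.im| ^ a) * |z.im| ^ (-a) :=
          mul_le_mul h8 h10 (by positivity) (by positivity)
      _ = C := by
          rw [mul_assoc, ← Real.rpow_add h9, add_neg_cancel, Real.rpow_zero, mul_one]

/-- The strip. -/
private lemma helper34_strip (hZ : ZEL_stmt) (η : ℝ) (hη : 0 < η) :
    ∃ C : ℝ, 0 < C ∧ ∀ s : ℂ, 0 ≤ s.re → s.re ≤ 1 / 2 → 1 ≤ |s.im| →
      ‖riemannZeta s‖ ≤ C * |s.im| ^ (1 / 2 + η) := by
  set a : ℝ := 1 / 2 + η with ha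
  have ha0 : 0 < a := by positivity
  obtain ⟨C1, hC1, h1⟩ := helper34_axis_bound hZ η hη
  obtain ⟨C2, hC2, h2⟩ := hZ η hη
  obtain ⟨C3, hC3, h3⟩ := Pool.Agent.helper84.DM.zeta_poly
  obtain ⟨D1, hD1, g1⟩ := helper34_line a 0 C1 le_rfl (by norm_num) ha0.le hC1 (by
    intro z hz him
    have h4 : z = (z.im : ℂ) * I := by
      have := (Complex.re_add_im z).symm
      rw [hz] at this
      simpa using this
    have h5 := h1 z.im him
    rw [← h4] at h5
    exact h5)
  obtain ⟨D2, hD2, g2⟩ := helper34_line a (1 / 2) C2 (by norm_num) le_rfl ha0.le hC2 (by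
    intro z hz him
    have h5 := h2 z (by rw [hz]) him
    rw [hz] at h5
    have h6 : max (1 - (1 / 2 : ℝ)) 0 = 1 / 2 := by norm_num
    rw [h6] at h5
    exact h5)
  have key : ∀ s : ℂ, 0 ≤ s.re → s.re ≤ 1 / 2 →
      ‖riemannZeta s * (s + 2) ^ (-(a : ℂ))‖ ≤ max D1 D2 := by
    intro s hs0 hs1
    refine PhragmenLindelof.vertical_strip (a := 0) (b := 1 / 2)
      (f := fun z : ℂ => riemannZeta z * (z + 2) ^ (-(a : ℂ))) ?_ ?_
      (fun z hz => (g1 z hz).trans (le_max_left _ _))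
      (fun z hz => (g2 z hz).trans (le_max_right _ _)) hs0 hs1
    · apply DifferentiableOn.diffContOnCl
      intro z hz
      have hcl : closure (Complex.re ⁻¹' Ioo (0 : ℝ) (1 / 2)) ⊆ Complex.re ⁻¹' Icc (0 : ℝ) (1 / 2) :=
        closure_minimal (preimage_mono Ioo_subset_Icc_self)
          (isClosed_Icc.preimage Complex.continuous_re)
      have := hcl hz
      exact (helper34_diff a z this.1 this.2).differentiableWithinAt
    · refine ⟨1, ?_, 1, ?_⟩
      · rw [sub_zero, lt_div_iff₀ (by norm_num)]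
        have := Real.pi_gt_three
        linarith
      · apply Asymptotics.IsBigO.of_bound (6 * C3)
        have h6 : ∀ᶠ z : ℂ in Filter.comap (_root_.abs ∘ im) Filter.atTop, 1 ≤ |z.im| :=
          (Filter.eventually_ge_atTop (1 : ℝ)).comap (_root_.abs ∘ im)
        filter_upwards [Filter.mem_inf_of_left h6,
          Filter.mem_inf_of_right (Filter.mem_principal_self (Complex.re ⁻¹' Ioo (0 : ℝ) (1 / 2)))]
          with z hz1 hz2
        have hz1' : 1 ≤ |z.im| := hz1
        have hz3 : 0 < z.re := hz2.1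
        have h7 := h3 z (by linarith) hz1'
        have h8 : ‖z + 2‖ ^ (-a) ≤ 1 :=
          Real.rpow_le_one_of_one_le_of_nonpos (by linarith [helper34_norm_ge z hz3.le])
            (by linarith)
        have h9 : |z.im| ^ 3 ≤ 6 * Real.exp |z.im| := by
          have := Real.pow_div_factorial_le_exp |z.im| (abs_nonneg _) 3
          have h10 : ((Nat.factorial 3 : ℕ) : ℝ) = 6 := by norm_num [Nat.factorial]
          rw [h10, div_le_iff₀ (by norm_num)] at this
          linarith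
        have h10 : Real.exp |z.im| ≤ Real.exp (Real.exp |z.im|) := by
          apply Real.exp_le_exp.mpr
          have := Real.add_one_le_exp |z.im|
          linarith
        rw [norm_mul, helper34_cpow_norm, one_mul, one_mul, Real.norm_eq_abs,
          abs_of_pos (Real.exp_pos _)]
        calc ‖riemannZeta z‖ * ‖z + 2‖ ^ (-a) ≤ (C3 * |z.im| ^ 3) * 1 :=
              mul_le_mul h7 h8 (by positivity) (by positivity)
          _ ≤ C3 * (6 * Real.exp (Real.exp |z.im|)) := by
              rw [mul_one]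
              refine mul_le_mul_of_nonneg_left ?_ hC3.le
              linarith
          _ = 6 * C3 * Real.exp (Real.exp |z.im|) := by ring
  refine ⟨max D1 D2 * 4 ^ a, by positivity, fun s hs0 hs1 him => ?_⟩
  have h4 := key s hs0 hs1
  rw [norm_mul, helper34_cpow_norm] at h4
  have h5 : 0 < ‖s + 2‖ := by linarith [helper34_norm_ge s hs0]
  have h6 : ‖s + 2‖ ≤ 4 * |s.im| := by
    have h7 := Complex.norm_le_abs_re_add_abs_im (s + 2)
    have h8 : (s + 2).re = s.re + 2 := by simp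
    have h9 : (s + 2).im = s.im := by simp
    rw [h8, h9, abs_of_nonneg (by linarith : 0 ≤ s.re + 2)] at h7
    linarith
  have h7 : ‖s + 2‖ ^ a ≤ 4 ^ a * |s.im| ^ a := by
    rw [← Real.mul_rpow (by norm_num) (abs_nonneg _)]
    exact Real.rpow_le_rpow h5.le h6 ha0.le
  calc ‖riemannZeta s‖ = (‖riemannZeta s‖ * ‖s + 2‖ ^ (-a)) * ‖s + 2‖ ^ a := by
        rw [mul_assoc, ← Real.rpow_add h5, neg_add_cancel, Real.rpow_zero, mul_one]
    _ ≤ max D1 D2 * (4 ^ a * |s.im| ^ a) :=
        mul_le_mul h4 h7 (by positivity) (by positivity)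
    _ = max D1 D2 * 4 ^ a * |s.im| ^ a := by ring

theorem CVX (hZ : ZEL_stmt) : CVX_stmt := by
  intro η hη _
  obtain ⟨C1, hC1, h1⟩ := helper34_strip hZ η hη
  obtain ⟨C2, hC2, h2⟩ := hZ η hη
  refine ⟨max C1 C2, by positivity, fun s hs him => ?_⟩
  have hp : 0 ≤ |s.im| ^ (1 / 2 + η) := by positivity
  rcases le_total s.re (1 / 2) with h | h
  · exact (h1 s hs h him).trans (mul_le_mul_of_nonneg_right (le_max_left _ _) hp)
  · refine (h2 s h him).trans ?_
    have h3 : |s.im| ^ (max (1 - s.re) 0 + η) ≤ |s.im| ^ (1 / 2 + η) := by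
      apply Real.rpow_le_rpow_of_exponent_le him
      have : max (1 - s.re) 0 ≤ 1 / 2 := max_le (by linarith) (by norm_num)
      linarith
    exact mul_le_mul (le_max_right _ _) h3 (by positivity) (by positivity)

end Pool.Agent.EQ
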